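import Mathlib

set_option autoImplicit false

namespace Pool.Agent.Results.MP_5daced_lc.Pos

open Set

/-- modal formulas in negation normal form -/
inductive Fm : Type
  | var : ℕ → Fm
  | nvar : ℕ → Fm
  | bot : Fm
  | top : Fm
  | and : Fm → Fm → Fm
  | or : Fm → Fm → Fm
  | dia : Fm → Fm
  | box : Fm → Fm

/-- truth sets -/
def sem {W : Type} (D : Set W → Set W) (θ : ℕ → Set W) : Fm → Set W
  | .var p => θ p
  | .nvar p => (θ p)ᶜ
  | .bot => ∅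
  | .top => univ
  | .and a b => sem D θ a ∩ sem D θ b
  | .or a b => sem D θ a ∪ sem D θ b
  | .dia a => D (sem D θ a)
  | .box a => (D (sem D θ a)ᶜ)ᶜ

/-- no literal `¬p` with `p ∈ ps` occurs -/
def Positive (ps : List ℕ) : Fm → Prop
  | .nvar p => p ∉ ps
  | .and a b => Positive ps a ∧ Positive ps b
  | .or a b => Positive ps a ∧ Positive ps b
  | .dia a => Positive ps a
  | .box a => Positive ps a
  | _ => True

/-- image of a set under a relation -/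
def img {W : Type} (Z : W → W → Prop) (X : Set W) : Set W := {y | ∃ x ∈ X, Z x y}

/-- directed bisimulations between two models on one frame -/
def DirBis {W : Type} (D : Set W → Set W) (ps : List ℕ) (θ₁ θ₂ : ℕ → Set W)
    (Z : W → W → Prop) : Prop :=
  (∀ X, img Z (D X) ⊆ D (img Z X)) ∧ (∀ X, img (flip Z) (D X) ⊆ D (img (flip Z) X)) ∧
    (∀ p, img Z (θ₁ p) ⊆ θ₂ p) ∧ ∀ p ∉ ps, img Z (θ₁ p)ᶜ ⊆ (θ₂ p)ᶜ

/-- a bound for the variables -/
def bd : Fm → ℕ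
  | .var p => p + 1
  | .nvar p => p + 1
  | .and a b => max (bd a) (bd b)
  | .or a b => max (bd a) (bd b)
  | .dia a => bd a
  | .box a => bd a
  | _ => 0

lemma sem_congr {W : Type} (D : Set W → Set W) (θ θ' : ℕ → Set W) (φ : Fm)
    (h : ∀ p < bd φ, θ p = θ' p) : sem D θ φ = sem D θ' φ := by
  induction φ <;> simp_all [sem, bd]

lemma pres {W : Type} (D : Set W → Set W) (hD : Monotone D) (ps : List ℕ) (θ₁ θ₂ : ℕ → Set W)
    (Z : W → W → Prop) (hZ : DirBis D ps θ₁ θ₂ Z) (ψ : Fm) (h : Positive ps ψ) :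
    img Z (sem D θ₁ ψ) ⊆ sem D θ₂ ψ := by
  induction ψ with
  | var p => exact hZ.2.2.1 p
  | nvar p => exact hZ.2.2.2 p h
  | bot => rintro y ⟨x, hx, -⟩; exact hx
  | top => exact subset_univ _
  | and a b iha ihb => exact fun y ⟨x, hx, z⟩ => ⟨iha h.1 ⟨x, hx.1, z⟩, ihb h.2 ⟨x, hx.2, z⟩⟩
  | or a b iha ihb =>
    exact fun y ⟨x, hx, z⟩ => hx.imp (fun k => iha h.1 ⟨x, k, z⟩) fun k => ihb h.2 ⟨x, k, z⟩
  | dia a ih => exact (hZ.1 _).trans (hD (ih h))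
  | box a ih =>
    rintro y ⟨x, hx, z⟩ hy
    refine hx (hD ?_ (hZ.2.1 _ ⟨y, hy, z⟩))
    rintro u ⟨v, hv, z'⟩ hu
    exact hv (ih h ⟨u, hu, z'⟩)

/-- extension of a finite valuation -/
def ext {W : Type} {N : ℕ} (t : Fin N → Set W) (p : ℕ) : Set W := if h : p < N then t ⟨p, h⟩ else ∅

lemma definable {W : Type} [Finite W] (D : Set W → Set W) (ps : List ℕ) (N : ℕ)
    (A : Set ((Fin N → Set W) × W)) (hA : ∀ a ∈ A, ∀ b ∉ A, ∃ ψ, Positive ps ψ ∧ bd ψ ≤ N ∧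
      a.2 ∈ sem D (ext a.1) ψ ∧ b.2 ∉ sem D (ext b.1) ψ) :
    ∃ ψ, Positive ps ψ ∧ bd ψ ≤ N ∧ ∀ a, a ∈ A ↔ a.2 ∈ sem D (ext a.1) ψ := by
  have h1 : ∀ a ∈ A, ∀ B : Set ((Fin N → Set W) × W), B ⊆ Aᶜ → ∃ ψ, Positive ps ψ ∧ bd ψ ≤ N ∧
      a.2 ∈ sem D (ext a.1) ψ ∧ ∀ b ∈ B, b.2 ∉ sem D (ext b.1) ψ := by
    intro a ha B
    induction B, toFinite B using Set.Finite.induction_on with
    | empty => exact fun _ => ⟨.top, trivial, Nat.zero_le _, trivial, by simp⟩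
    | @insert b B _ _ ih =>
      intro h
      obtain ⟨ψ, a1, a2, a3, a4⟩ := ih ((subset_insert _ _).trans h)
      obtain ⟨χ, b1, b2, b3, b4⟩ := hA a ha b (h (mem_insert _ _))
      refine ⟨.and ψ χ, ⟨a1, b1⟩, max_le a2 b2, ⟨a3, b3⟩, ?_⟩
      rintro c (rfl | hc) k
      exacts [b4 k.2, a4 c hc k.1]
  have h2 : ∀ B : Set ((Fin N → Set W) × W), B ⊆ A → ∃ ψ, Positive ps ψ ∧ bd ψ ≤ N ∧
      (∀ a ∈ B, a.2 ∈ sem D (ext a.1) ψ) ∧ ∀ b ∉ A, b.2 ∉ sem D (ext b.1) ψ := by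
    intro B
    induction B, toFinite B using Set.Finite.induction_on with
    | empty => exact fun _ => ⟨.bot, trivial, Nat.zero_le _, by simp, fun _ _ h => h⟩
    | @insert b B _ _ ih =>
      intro h
      obtain ⟨ψ, a1, a2, a3, a4⟩ := ih ((subset_insert _ _).trans h)
      obtain ⟨χ, b1, b2, b3, b4⟩ := h1 b (h (mem_insert _ _)) _ subset_rfl
      refine ⟨.or ψ χ, ⟨a1, b1⟩, max_le a2 b2, ?_, fun c hc k => k.elim (a4 c hc) (b4 c hc)⟩
      rintro c (rfl | hc)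
      exacts [Or.inr b3, Or.inl (a3 c hc)]
  obtain ⟨ψ, a1, a2, a3, a4⟩ := h2 A subset_rfl
  exact ⟨ψ, a1, a2, fun a => ⟨a3 a, fun h => by_contra fun k => a4 a k h⟩⟩

theorem result (W : Type) [Finite W] (D : Set W → Set W) (hD : Monotone D) (ps : List ℕ)
    (φ : Fm) : (∃ ψ, Positive ps ψ ∧ ∀ θ, sem D θ φ = sem D θ ψ) ↔
      ∀ θ₁ θ₂ Z, DirBis D ps θ₁ θ₂ Z → img Z (sem D θ₁ φ) ⊆ sem D θ₂ φ := by
  refine ⟨fun ⟨ψ, h1, h2⟩ θ₁ θ₂ Z hZ => by rw [h2, h2]; exact pres D hD ps _ _ Z hZ ψ h1,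
    fun H => ?_⟩
  set N := bd φ
  set R : (Fin N → Set W) × W → (Fin N → Set W) × W → Prop := fun a b =>
    ∀ ψ, Positive ps ψ → bd ψ ≤ N → a.2 ∈ sem D (ext a.1) ψ → b.2 ∈ sem D (ext b.1) ψ with hR
  have up : ∀ (s : Fin N → Set W) (X : Set W), ∃ ψ, Positive ps ψ ∧ bd ψ ≤ N ∧
      X ⊆ sem D (ext s) ψ ∧ ∀ t, sem D (ext t) ψ ⊆ img (fun x y => R (s, x) (t, y)) X := by
    intro s X
    obtain ⟨ψ, a1, a2, a3⟩ := definable D ps N {b | ∃ x ∈ X, R (s, x) b} (by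
      rintro a ⟨x, hx, h⟩ b hb
      by_contra k
      push Not at k
      exact hb ⟨x, hx, fun ψ h1 h2 h3 => k ψ h1 h2 (h ψ h1 h2 h3)⟩)
    exact ⟨ψ, a1, a2, fun x hx => (a3 (s, x)).1 ⟨x, hx, fun _ _ _ h => h⟩,
      fun t y hy => (a3 (t, y)).2 hy⟩
  have hb : ∀ s t, DirBis D ps (ext s) (ext t) fun x y => R (s, x) (t, y) := by
    refine fun s t => ⟨fun X => ?_, fun X => ?_, fun p => ?_, fun p hp => ?_⟩
    · rintro y ⟨x, hx, h⟩
      obtain ⟨ψ, a1, a2, a3, a4⟩ := up s X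
      exact hD (a4 t) (h (.dia ψ) a1 a2 (hD a3 hx))
    · rintro x ⟨y, hy, h⟩
      obtain ⟨ψ, a1, a2, a3, a4⟩ := up s (img (flip fun x y => R (s, x) (t, y)) X)ᶜ
      by_contra k
      refine h (.box ψ) a1 a2 (fun k' => k (hD (compl_subset_comm.1 a3) k')) (hD ?_ hy)
      intro v hv k'
      obtain ⟨u, hu, z⟩ := a4 t k'
      exact hu ⟨v, hv, z⟩
    · rintro y ⟨x, hx, h⟩
      by_cases k : p < N
      · exact h (.var p) trivial k hx
      · simp [ext, k] at hx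
    · rintro y ⟨x, hx, h⟩
      by_cases k : p < N
      · exact h (.nvar p) hp k hx
      · simp [ext, k]
  obtain ⟨ψ, a1, a2, a3⟩ := definable D ps N {a | a.2 ∈ sem D (ext a.1) φ} (by
    intro a ha b hb'
    by_contra k
    push Not at k
    exact hb' (H _ _ _ (hb a.1 b.1) ⟨a.2, ha, k⟩))
  refine ⟨ψ, a1, fun θ => ?_⟩
  have e : ∀ p < N, θ p = ext (fun i : Fin N => θ i) p := fun p hp => by simp [ext, hp]
  rw [sem_congr D θ _ φ e, sem_congr D θ _ ψ fun p hp => e p (hp.trans_le a2)]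
  exact Set.ext fun w => a3 (_, w)

end Pool.Agent.Results.MP_5daced_lc.Pos
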